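import Mathlib

namespace Pool.Agent.Results.MP_ea8055_nt.ThirdWieferich

/-- `n` is a base-2 pseudoprime: composite, and `2^(n-1) ≡ 1 (mod n)`. -/
def IsPsp2 (n : ℕ) : Prop := 1 < n ∧ ¬ n.Prime ∧ 2 ^ (n - 1) ≡ 1 [MOD n]

/-- `p` is a Wieferich prime: prime, and `2^(p-1) ≡ 1 (mod p^2)`. -/
def IsWieferich (p : ℕ) : Prop := p.Prime ∧ 2 ^ (p - 1) ≡ 1 [MOD p ^ 2]

/-- If `p ∣ m` and `2^(m^2-1) ≡ 1 (mod p^k)`, then already `2^(p-1) ≡ 1 (mod p^k)`. -/
theorem key {p m k : ℕ} (hp : p.Prime) (hpm : p ∣ m) (hm : 1 < m) (hk : 1 ≤ k)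
    (h : 2 ^ (m ^ 2 - 1) ≡ 1 [MOD p ^ k]) : 2 ^ (p - 1) ≡ 1 [MOD p ^ k] := by
  have hm2 : 1 < m ^ 2 := Nat.one_lt_pow (by norm_num) hm
  have hpk : 1 < p ^ k := Nat.one_lt_pow (by omega) hp.one_lt
  have hcop : Nat.Coprime 2 (p ^ k) := by
    have h1 : Nat.Coprime (2 ^ (m ^ 2 - 1)) (p ^ k) := by
      have := h.gcd_eq
      unfold Nat.Coprime
      rw [this]; simp
    exact Nat.Coprime.coprime_dvd_left (dvd_pow_self 2 (by omega)) h1
  have htot : 2 ^ Nat.totient (p ^ k) ≡ 1 [MOD p ^ k] := Nat.ModEq.pow_totient hcop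
  have h' : ((2 : ZMod (p ^ k))) ^ (m ^ 2 - 1) = 1 := by
    have := (ZMod.natCast_eq_natCast_iff _ _ _).2 h
    push_cast at this; simpa using this
  have htot' : ((2 : ZMod (p ^ k))) ^ (p ^ (k - 1) * (p - 1)) = 1 := by
    rw [Nat.totient_prime_pow hp (by omega)] at htot
    have := (ZMod.natCast_eq_natCast_iff _ _ _).2 htot
    push_cast at this; simpa using this
  have hd1 : orderOf (2 : ZMod (p ^ k)) ∣ m ^ 2 - 1 := orderOf_dvd_of_pow_eq_one h'
  have hd2 : orderOf (2 : ZMod (p ^ k)) ∣ p ^ (k - 1) * (p - 1) := orderOf_dvd_of_pow_eq_one htot'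
  have hc : Nat.Coprime (orderOf (2 : ZMod (p ^ k))) (p ^ (k - 1)) := by
    apply Nat.Coprime.pow_right
    rw [Nat.coprime_comm, hp.coprime_iff_not_dvd]
    intro hpd
    have h1 : p ∣ m ^ 2 - 1 := hpd.trans hd1
    have h2 : p ∣ m ^ 2 := dvd_pow hpm (by norm_num)
    have h3 : p ∣ m ^ 2 - (m ^ 2 - 1) := Nat.dvd_sub h2 h1
    have h4 : m ^ 2 - (m ^ 2 - 1) = 1 := by omega
    rw [h4] at h3
    exact hp.one_lt.ne' (Nat.dvd_one.1 h3)
  have hd3 : orderOf (2 : ZMod (p ^ k)) ∣ p - 1 := hc.dvd_of_dvd_mul_left hd2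
  have h5 : (2 : ZMod (p ^ k)) ^ (p - 1) = 1 := orderOf_dvd_iff_pow_eq_one.1 hd3
  apply (ZMod.natCast_eq_natCast_iff _ _ _).1
  push_cast; simpa using h5

/-- Lifting: `2^e ≡ 1 (mod p)` and `2^(p-1) ≡ 1 (mod p^k)` give `2^e ≡ 1 (mod p^k)`. -/
theorem lift {p e k : ℕ} (hp : p.Prime) (hk : 1 ≤ k)
    (h1 : 2 ^ e ≡ 1 [MOD p]) (h2 : 2 ^ (p - 1) ≡ 1 [MOD p ^ k]) : 2 ^ e ≡ 1 [MOD p ^ k] := by
  have ha : (2 ^ e) ^ (p - 1) ≡ 1 [MOD p ^ k] := by
    rw [← pow_mul, mul_comm, pow_mul]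
    simpa using h2.pow e
  have hb : (2 ^ e) ^ p ^ (k - 1) ≡ 1 [MOD p ^ k] := by
    have h3 : ((p : ℤ)) ∣ (2 ^ e : ℤ) - 1 := by
      have := (Nat.modEq_iff_dvd.1 h1.symm)
      push_cast at this; exact this
    have h4 : ((p : ℤ) ^ (k - 1 + 1)) ∣ ((2 ^ e : ℤ)) ^ p ^ (k - 1) - 1 ^ p ^ (k - 1) :=
      dvd_sub_pow_of_dvd_sub h3 (k - 1)
    have h5 : k - 1 + 1 = k := by omega
    rw [h5] at h4
    apply Nat.ModEq.symm
    apply Nat.modEq_iff_dvd.2
    push_cast; simpa using h4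
  have ha' : ((2 ^ e : ℕ) : ZMod (p ^ k)) ^ (p - 1) = 1 := by
    have := (ZMod.natCast_eq_natCast_iff _ _ _).2 ha
    push_cast at this ⊢; simpa using this
  have hb' : ((2 ^ e : ℕ) : ZMod (p ^ k)) ^ p ^ (k - 1) = 1 := by
    have := (ZMod.natCast_eq_natCast_iff _ _ _).2 hb
    push_cast at this ⊢; simpa using this
  have hd1 := orderOf_dvd_of_pow_eq_one ha'
  have hd2 := orderOf_dvd_of_pow_eq_one hb'
  have hcop : Nat.Coprime (p - 1) (p ^ (k - 1)) := by
    apply Nat.Coprime.pow_right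
    rw [Nat.coprime_comm, hp.coprime_iff_not_dvd]
    intro h
    have := Nat.le_of_dvd (by have := hp.two_le; omega) h
    have := hp.two_le
    omega
  have hd3 : orderOf ((2 ^ e : ℕ) : ZMod (p ^ k)) ∣ 1 := by
    have := Nat.dvd_gcd hd1 hd2
    rwa [hcop.gcd_eq_one] at this
  have h6 : ((2 ^ e : ℕ) : ZMod (p ^ k)) = ((1 : ℕ) : ZMod (p ^ k)) := by
    have := orderOf_dvd_iff_pow_eq_one.1 hd3
    simpa using this
  exact (ZMod.natCast_eq_natCast_iff _ _ _).1 h6

theorem not_prime_sq {m : ℕ} : ¬ (m ^ 2).Prime := by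
  intro h
  exact (Nat.Prime.not_prime_pow (le_refl 2)) h

theorem char (m : ℕ) (hm : 1 < m) :
    IsPsp2 (m ^ 2) ↔ ∀ p : ℕ, p.Prime → p ∣ m →
      2 ^ (p - 1) ≡ 1 [MOD p ^ (2 * m.factorization p)] ∧ 2 ^ (m ^ 2 - 1) ≡ 1 [MOD p] := by
  constructor
  · rintro ⟨-, -, h⟩ p hp hpm
    have hf : 1 ≤ m.factorization p := by
      rw [Nat.one_le_iff_ne_zero]
      exact (hp.factorization_pos_of_dvd (by omega) hpm).ne'
    have hdiv : p ^ (2 * m.factorization p) ∣ m ^ 2 := by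
      rw [mul_comm, pow_mul]
      exact pow_dvd_pow_of_dvd (Nat.ordProj_dvd m p) 2
    refine ⟨key hp hpm hm (by omega) (h.of_dvd hdiv), h.of_dvd ?_⟩
    exact dvd_pow hpm (by norm_num)
  · intro h
    refine ⟨Nat.one_lt_pow (by norm_num) hm, not_prime_sq, ?_⟩
    apply Nat.ModEq.symm
    apply (Nat.modEq_iff_dvd' (Nat.one_le_two_pow)).2
    rw [← Nat.factorization_prime_le_iff_dvd (by positivity)]
    · intro p hp
      by_cases hpm : p ∣ m
      · obtain ⟨h1, h2⟩ := h p hp hpm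
        have hf : 1 ≤ m.factorization p := by
          rw [Nat.one_le_iff_ne_zero]
          exact (hp.factorization_pos_of_dvd (by omega) hpm).ne'
        have h3 := lift hp (by omega) h2 h1
        have h4 : p ^ (2 * m.factorization p) ∣ 2 ^ (m ^ 2 - 1) - 1 :=
          (Nat.modEq_iff_dvd' (Nat.one_le_two_pow)).1 h3.symm
        have h5 : (m ^ 2).factorization p = 2 * m.factorization p := by
          simp
        rw [h5]
        refine (hp.pow_dvd_iff_le_factorization ?_).1 h4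
        have : 1 < m ^ 2 := Nat.one_lt_pow (by norm_num) hm
        have : 2 ^ 1 ≤ 2 ^ (m ^ 2 - 1) := Nat.pow_le_pow_right (by norm_num) (by omega)
        omega
      · have : (m ^ 2).factorization p = 0 := by
          apply Nat.factorization_eq_zero_of_not_dvd
          intro h; exact hpm (hp.dvd_of_dvd_pow h)
        rw [this]; exact Nat.zero_le _
    · have : 1 < m ^ 2 := Nat.one_lt_pow (by norm_num) hm
      have : 2 ^ 1 ≤ 2 ^ (m ^ 2 - 1) := Nat.pow_le_pow_right (by norm_num) (by omega)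
      omega

theorem w1093 : IsWieferich 1093 := ⟨by norm_num, by unfold Nat.ModEq; decide +kernel⟩
theorem w3511 : IsWieferich 3511 := ⟨by norm_num, by unfold Nat.ModEq; decide +kernel⟩

theorem one_lt_of_psp {m : ℕ} (h : IsPsp2 (m ^ 2)) : 1 < m := by
  rcases h with ⟨h, -, -⟩
  by_contra hm
  have : m = 0 ∨ m = 1 := by omega
  rcases this with rfl | rfl <;> simp at h

theorem sub_pair {s : Finset ℕ} {a b : ℕ} (h : s ⊆ ({a, b} : Finset ℕ)) :
    s = ∅ ∨ s = {a} ∨ s = {b} ∨ s = {a, b} := by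
  by_cases ha : a ∈ s <;> by_cases hb : b ∈ s
  · right; right; right
    apply Finset.Subset.antisymm h
    intro x hx
    simp only [Finset.mem_insert, Finset.mem_singleton] at hx
    rcases hx with rfl | rfl <;> assumption
  · right; left
    ext x
    simp only [Finset.mem_singleton]
    constructor
    · intro hx
      have := h hx
      simp only [Finset.mem_insert, Finset.mem_singleton] at this
      rcases this with rfl | rfl
      · rfl
      · exact absurd hx hb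
    · rintro rfl; exact ha
  · right; right; left
    ext x
    simp only [Finset.mem_singleton]
    constructor
    · intro hx
      have := h hx
      simp only [Finset.mem_insert, Finset.mem_singleton] at this
      rcases this with rfl | rfl
      · exact absurd hx ha
      · rfl
    · rintro rfl; exact hb
  · left
    ext x
    simp only [Finset.notMem_empty, iff_false]
    intro hx
    have := h hx
    simp only [Finset.mem_insert, Finset.mem_singleton] at this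
    rcases this with rfl | rfl
    · exact ha hx
    · exact hb hx

theorem third (m : ℕ) (h : IsPsp2 (m ^ 2)) :
    m = 1093 ∨ m = 3511 ∨ ∃ p, IsWieferich p ∧ p ≠ 1093 ∧ p ≠ 3511 ∧ p ∣ m := by
  have hm := one_lt_of_psp h
  by_contra hcon
  push Not at hcon
  obtain ⟨hm1, hm2, hcon⟩ := hcon
  have hpow := h.2.2
  have hw : ∀ p : ℕ, p.Prime → p ∣ m → IsWieferich p := by
    intro p hp hpm
    refine ⟨hp, key hp hpm hm (by norm_num) (hpow.of_dvd ?_)⟩
    exact pow_dvd_pow_of_dvd hpm 2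
  have hpr : ∀ p : ℕ, p.Prime → p ∣ m → p = 1093 ∨ p = 3511 := by
    intro p hp hpm
    by_contra hne
    push Not at hne
    exact hcon p (hw p hp hpm) hne.1 hne.2 hpm
  have hsq : Squarefree m := by
    rw [Nat.squarefree_iff_prime_squarefree]
    intro p hp hpp
    have hpm : p ∣ m := (dvd_mul_right p p).trans hpp
    have h4 : p ^ 4 ∣ m ^ 2 := by
      have : p ^ 4 = (p * p) ^ 2 := by ring
      rw [this]; exact pow_dvd_pow_of_dvd hpp 2
    have h5 := key hp hpm hm (by norm_num) (hpow.of_dvd h4)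
    rcases hpr p hp hpm with rfl | rfl
    · revert h5; unfold Nat.ModEq; decide +kernel
    · revert h5; unfold Nat.ModEq; decide +kernel
  have hsub : m.primeFactors ⊆ ({1093, 3511} : Finset ℕ) := by
    intro p hp
    rw [Nat.mem_primeFactors] at hp
    rcases hpr p hp.1 hp.2.1 with rfl | rfl <;> simp
  have hprod := Nat.prod_primeFactors_of_squarefree hsq
  rcases sub_pair hsub with h0 | h0 | h0 | h0
  · rw [h0] at hprod; simp at hprod; omega
  · rw [h0] at hprod; simp at hprod; omega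
  · rw [h0] at hprod; simp at hprod; omega
  · rw [h0] at hprod
    rw [Finset.prod_pair (by norm_num)] at hprod
    have h6 : 2 ^ (m ^ 2 - 1) ≡ 1 [MOD 1093] := by
      apply hpow.of_dvd
      rw [← hprod]
      exact dvd_pow (dvd_mul_right _ _) (by norm_num)
    have h7 : m ^ 2 - 1 = 364 * ((m ^ 2 - 1) / 364) + (m ^ 2 - 1) % 364 := (Nat.div_add_mod _ _).symm
    have h8 : (m ^ 2 - 1) % 364 = ((1093 * 3511) ^ 2 - 1) % 364 := by rw [← hprod]
    rw [h7, h8, pow_add, pow_mul] at h6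
    have h9 : (2 ^ 364) ^ ((m ^ 2 - 1) / 364) ≡ 1 [MOD 1093] := by
      have : 2 ^ 364 ≡ 1 [MOD 1093] := by unfold Nat.ModEq; decide +kernel
      simpa using this.pow ((m ^ 2 - 1) / 364)
    have h10 : 1 * 2 ^ (((1093 * 3511) ^ 2 - 1) % 364) ≡ 1 [MOD 1093] :=
      (h9.mul_right _).symm.trans h6
    revert h10; unfold Nat.ModEq; decide +kernel

theorem result :
    -- (1) which squares are psp(2)
    (∀ m : ℕ, 1 < m → (IsPsp2 (m ^ 2) ↔ ∀ p : ℕ, p.Prime → p ∣ m →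
      2 ^ (p - 1) ≡ 1 [MOD p ^ (2 * m.factorization p)] ∧ 2 ^ (m ^ 2 - 1) ≡ 1 [MOD p])) ∧
    -- (2) every further psp(2) square is divisible by a third Wieferich prime
    (∀ m : ℕ, IsPsp2 (m ^ 2) →
      m = 1093 ∨ m = 3511 ∨ ∃ p, IsWieferich p ∧ p ≠ 1093 ∧ p ≠ 3511 ∧ p ∣ m) ∧
    -- (3) Q1 holds exactly if there is a third Wieferich prime
    ((∃ m : ℕ, IsPsp2 (m ^ 2) ∧ m ^ 2 ≠ 1093 ^ 2 ∧ m ^ 2 ≠ 3511 ^ 2) ↔
      ∃ p, IsWieferich p ∧ p ≠ 1093 ∧ p ≠ 3511) := by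
  refine ⟨char, third, ?_, ?_⟩
  · rintro ⟨m, hm, h1, h2⟩
    rcases third m hm with rfl | rfl | ⟨p, hp, h3, h4, -⟩
    · exact absurd rfl h1
    · exact absurd rfl h2
    · exact ⟨p, hp, h3, h4⟩
  · rintro ⟨p, hp, h1, h2⟩
    have hp2 : 1 < p ^ 2 := Nat.one_lt_pow (by norm_num) hp.1.one_lt
    refine ⟨p, ⟨hp2, not_prime_sq, ?_⟩, ?_, ?_⟩
    · have : p ^ 2 - 1 = (p - 1) * (p + 1) := by
        rw [mul_comm, ← Nat.sq_sub_sq, one_pow]
      rw [this, pow_mul]
      simpa using hp.2.pow (p + 1)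
    · intro h; exact h1 (Nat.pow_left_injective (by norm_num) h)
    · intro h; exact h2 (Nat.pow_left_injective (by norm_num) h)

end Pool.Agent.Results.MP_ea8055_nt.ThirdWieferich
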